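import Pool.Agent.H2.DF.Lim

/-!
# The pair heights are bounded by the measure; closedness
-/

set_option autoImplicit false

namespace Pool.Agent.H2.DF

open Polynomial Filter MeasureTheory Topology Pool.Agent.H261R2.CM Pool.Agent.W5h6.HS

noncomputable section

variable {ι : Type} [Fintype ι] {m a b : ℕ}

omit [Fintype ι] in
/-- the inner integral -/
theorem inner_eq (Φ : Fin (m + 1) → MvPolynomial (ι ⊕ ι) ℤ) (x : ι → ℂ) :
    ∫ w in Set.Icc (0 : ℝ) 1, Real.log ‖phiY Φ x w‖ = Real.log (pp Φ x).mahlerMeasure := by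
  rw [K8.log_mahler]
  simp only [pp_eval]

/-- the constant -/
def cst (c : ℝ) (m : ℕ) : ℝ := Real.log (2 ^ m) - Real.log c

theorem inner_ge (Φ : Fin (m + 1) → MvPolynomial (ι ⊕ ι) ℤ) (hE : EllF Φ) {c : ℝ} (hc : 0 < c)
    (hb : ∀ x : ι → ℂ, c * ‖x‖ ^ (a + b) ≤ sm Φ x) {x : ι → ℂ} (hx : x ≠ 0) :
    ((a + b : ℕ) : ℝ) * Real.log ‖x‖ ≤
      cst c m + ∫ w in Set.Icc (0 : ℝ) 1, Real.log ‖phiY Φ x w‖ := by
  have hx0 : 0 < ‖x‖ := norm_pos_iff.2 hx
  have hM := (pp Φ x).mahlerMeasure_pos_of_ne_zero (pp_ne_zero Φ hE hx)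
  have h1 := (hb x).trans (sm_le Φ x)
  have h2 : (0 : ℝ) < 2 ^ m := by positivity
  have h3 := Real.log_le_log (by positivity) h1
  rw [Real.log_mul hc.ne' (by positivity), Real.log_pow, Real.log_mul h2.ne' hM.ne'] at h3
  rw [inner_eq]
  unfold cst
  linarith

/-- integration over the variable `0` -/
theorem slice_eq {k : ℕ} (Φ : Fin (m + 1) → MvPolynomial (ι ⊕ ι) ℤ) (h : BiHomF Φ a b)
    (hE : EllF Φ) (P : ι → MvPolynomial (Fin k) ℤ) (hP : ∃ i, P i ≠ 0) :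
    IntegrableOn (fun t : Fin (k + 1) → ℝ => ∫ w in Set.Icc (0 : ℝ) 1,
      Real.log ‖phiY Φ (fun i => tv (P i) fun j => t j.succ) w‖) (Set.Icc 0 1) ∧
    ∫ t in Set.Icc (0 : Fin (k + 1) → ℝ) 1, (∫ w in Set.Icc (0 : ℝ) 1,
      Real.log ‖phiY Φ (fun i => tv (P i) fun j => t j.succ) w‖) = Real.log (mM (FY Φ P)) := by
  obtain ⟨h1, h2⟩ := K8.cube_slice 0 (fun t => Real.log ‖tv (FY Φ P) t‖)
    (F_integrable (FY_ne_zero Φ h hE P hP))
  have h3 : ∀ (t : Fin (k + 1) → ℝ) (w : ℝ), ‖tv (FY Φ P) (Function.update t 0 w)‖ =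
      ‖phiY Φ (fun i => tv (P i) fun j => t j.succ) w‖ := by
    intro t w
    rw [norm_FY Φ h]
    have e1 : (fun j : Fin k => Function.update t 0 w j.succ) = fun j => t j.succ := by
      funext j
      rw [Function.update_of_ne (Fin.succ_ne_zero j)]
    rw [e1, Function.update_self]
  simp only [h3] at h1 h2
  refine ⟨h1, ?_⟩
  rw [h2, log_mM]

theorem mx1_leF [Nonempty ι] (Φ : Fin (m + 1) → MvPolynomial (ι ⊕ ι) ℤ) (h : BiHomF Φ a b)
    (hE : EllF Φ) (hab : 0 < a + b) : ∃ C : ℝ, ∀ (A : ι → ℤ[X]) (i j : ι), A i ≠ 0 → A j ≠ 0 →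
      mx1 (A i) (A j) ≤ C + Real.log (E2 Φ A) / ((a + b : ℕ) : ℝ) := by
  obtain ⟨c, hc, hb⟩ := sm_lower Φ h hE hab
  have hm : (0 : ℝ) < ((a + b : ℕ) : ℝ) := by exact_mod_cast hab
  refine ⟨cst c m / ((a + b : ℕ) : ℝ), fun A i j hi hj => ?_⟩
  set P : ι → MvPolynomial (Fin 1) ℤ := fun i => up (A i) with hP
  have hPi : P i ≠ 0 := up_ne_zero hi
  obtain ⟨h1, h2⟩ := slice_eq Φ h hE P ⟨i, hPi⟩
  have hinj : Function.Injective (Fin.succ : Fin 1 → Fin 2) := Fin.succ_injective 1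
  have h3 : mx1 (A i) (A j) = mx (MvPolynomial.rename Fin.succ (P i))
      (MvPolynomial.rename Fin.succ (P j)) := by
    rw [Pool.Agent.TH845.KN.mx_ren _ hinj, mx_up]
  have hri : MvPolynomial.rename Fin.succ (P i) ≠ 0 := J.rename_ne_zero hPi
  have h4 : cst c m / ((a + b : ℕ) : ℝ) + Real.log (E2 Φ A) / ((a + b : ℕ) : ℝ) =
      ∫ t in Set.Icc (0 : Fin (1 + 1) → ℝ) 1, ((cst c m + ∫ w in Set.Icc (0 : ℝ) 1,
        Real.log ‖phiY Φ (fun i => tv (P i) fun j => t j.succ) w‖) / ((a + b : ℕ) : ℝ)) := by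
    rw [integral_div, integral_add (integrable_const _) h1, h2, setIntegral_const, J.vol_cube,
      one_smul, add_div]
    rfl
  rw [h3, h4]
  unfold mx
  refine setIntegral_mono_ae_restrict ?_ (((integrable_const _).add h1).div_const _) ?_
  · have h7 := K4_intk thM thM_cont thM_ge (MvPolynomial.rename Fin.succ (P i))
      (MvPolynomial.rename Fin.succ (P j)) hri
    have h8 : ∀ t : Fin (1 + 1) → ℝ, Real.log (max ‖tv (MvPolynomial.rename Fin.succ (P i)) t‖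
        ‖tv (MvPolynomial.rename Fin.succ (P j)) t‖) = 1 / 2 * Real.log (thM
          ‖tv (MvPolynomial.rename Fin.succ (P i)) t‖
          ‖tv (MvPolynomial.rename Fin.succ (P j)) t‖) := by
      intro t
      rw [thM_log (norm_nonneg _) (norm_nonneg _)]
      ring
    simp only [h8]
    exact h7.const_mul (1 / 2)
  · filter_upwards [F_zero_null hri] with t ht
    rw [J.tv_rename] at ht ⊢
    rw [J.tv_rename]
    set x : ι → ℂ := fun i => tv (P i) fun j => t j.succ with hx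
    have hpos : 0 < max ‖x i‖ ‖x j‖ := lt_max_of_lt_left (norm_pos_iff.mpr ht)
    have hle : max ‖x i‖ ‖x j‖ ≤ ‖x‖ := max_le (norm_le_pi_norm x i) (norm_le_pi_norm x j)
    have hxn : 0 < ‖x‖ := lt_of_lt_of_le hpos hle
    have h5 := inner_ge Φ hE hc hb (norm_pos_iff.1 hxn)
    rw [le_div_iff₀ hm]
    have h6 : Real.log (max ‖x i‖ ‖x j‖) ≤ Real.log ‖x‖ := Real.log_le_log hpos hle
    have h7 : Real.log (max ‖x i‖ ‖x j‖) * ((a + b : ℕ) : ℝ) ≤
      Real.log ‖x‖ * ((a + b : ℕ) : ℝ) := mul_le_mul_of_nonneg_right h6 hm.le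
    linarith

/-- The measures of the values of the family at coprime tuples. -/
def SFY (Φ : Fin (m + 1) → MvPolynomial (ι ⊕ ι) ℤ) : Set ℝ :=
  {x : ℝ | ∃ k : ℕ, ∃ P : ι → MvPolynomial (Fin k) ℤ, Cop P ∧ x = mM (FY Φ P)}

/-- **closedness** -/
theorem closed_SFY [Nonempty ι] (Φ : Fin (m + 1) → MvPolynomial (ι ⊕ ι) ℤ) (h : BiHomF Φ a b)
    (hE : EllF Φ) (hab : 0 < a + b) : IsClosed (SFY Φ) := by
  refine IsSeqClosed.isClosed ?_
  intro x μ hx hlim
  choose k P hP hxP using hx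
  have happ : ∀ n, ∃ A : ι → ℤ[X], Cop A ∧ |E2 Φ A - mM (FY Φ (P n))| < 1 / ((n : ℝ) + 1) :=
    fun n => approx_tupleF Φ h hE (P n) (hP n) _ (by positivity)
  choose A hA h1 using happ
  have hlim1 : Tendsto (fun n => E2 Φ (A n)) atTop (𝓝 μ) := by
    have h3 : Tendsto (fun n => E2 Φ (A n) - mM (FY Φ (P n))) atTop (𝓝 0) := by
      refine squeeze_zero_norm (fun n => ?_) tendsto_one_div_add_atTop_nhds_zero_nat
      rw [Real.norm_eq_abs]
      exact (h1 n).le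
    have h4 : Tendsto (fun n => mM (FY Φ (P n))) atTop (𝓝 μ) := hlim.congr fun n => hxP n
    have h5 := h3.add h4
    simp only [sub_add_cancel, zero_add] at h5
    exact h5
  obtain ⟨B, hB⟩ := hlim1.bddAbove_range
  obtain ⟨C, hC⟩ := mx1_leF Φ h hE hab
  have hm : (0 : ℝ) < ((a + b : ℕ) : ℝ) := by exact_mod_cast hab
  obtain ⟨k', e, R, hk', hR, he, hrel⟩ := tuple_compact A hA
    (C + Real.log B / ((a + b : ℕ) : ℝ)) (by
      intro n i j hi hj
      refine (hC (A n) i j hi hj).trans ?_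
      have h2 : E2 Φ (A n) ≤ B := hB ⟨n, rfl⟩
      have h3 : 0 < E2 Φ (A n) := lt_of_lt_of_le one_pos (E2_ge_one Φ h hE (A n) ⟨i, hi⟩)
      have h4 := Real.log_le_log h3 h2
      have h5 := div_le_div_of_nonneg_right h4 hm.le
      linarith)
  have hl := tuple_limitF Φ h hE R hR (hyperfilter ℕ) I2_hyper_le e he A hA hrel
  exact ⟨k', R, hR, tendsto_nhds_unique (hlim1.mono_left I2_hyper_le) hl⟩

end

end Pool.Agent.H2.DF
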