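import Pool.Agent.H2.DF.Clo

/-!
# Companions
-/

set_option autoImplicit false

namespace Pool.Agent.H2.DF

open Polynomial Filter MeasureTheory Topology Pool.Agent.H261R2.CM Pool.Agent.W5h6.HS
  Pool.Agent.TH845.KN

noncomputable section

theorem cube_slice' {n : ℕ} (i : Fin n) (g : (Fin n → ℝ) → ℝ)
    (hg : IntegrableOn g (Set.Icc 0 1)) :
    IntegrableOn (fun x => ∫ w in Set.Icc (0 : ℝ) 1, g (Function.update x i w)) (Set.Icc 0 1) ∧
      ∫ x in Set.Icc (0 : Fin n → ℝ) 1,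
        (∫ w in Set.Icc (0 : ℝ) 1, g (Function.update x i w)) =
      ∫ x in Set.Icc (0 : Fin n → ℝ) 1, g x := by
  obtain ⟨k', rfl⟩ : ∃ k', n = k' + 1 := ⟨n - 1, by have := i.2; omega⟩
  exact K8.cube_slice i g hg

theorem cop_rename {ι : Type} {k : ℕ} {P : ι → MvPolynomial (Fin k) ℤ} (hP : Cop P) :
    Cop (fun i => MvPolynomial.rename (Fin.succ : Fin k → Fin (k + 1)) (P i)) := by
  intro D hD
  obtain ⟨i0, hi0⟩ := hP.exists_ne
  have h0 : D.degreeOf 0 = 0 :=
    J.degreeOf_zero_of_dvd (J.rename_ne_zero hi0) (hD i0) 0 (J.degreeOf_zero_rename (P i0))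
  obtain ⟨D', rfl⟩ := J.exists_rename h0
  have h1 : IsUnit D' := hP D' fun i => by
    have h2 := map_dvd J.retr (hD i)
    rwa [J.retr_rename, J.retr_rename] at h2
  exact h1.map (MvPolynomial.rename Fin.succ)

variable {m a b : ℕ}

/-- The measures of the values of the family at coprime tuples have companions. -/
theorem mem_LL_FY {k r : ℕ} (Φ : Fin (m + 1) → MvPolynomial (Fin r ⊕ Fin r) ℤ)
    (h : BiHomF Φ a b) (hE : EllF Φ) (hab : 0 < a + b) (κ : ℝ) (hκ : 1 ≤ κ)
    (hb : ∀ x : Fin r → ℂ, (∑ i, ‖x i‖) ^ (a + b) ≤ κ * sm Φ x)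
    (P : Fin r → MvPolynomial (Fin k) ℤ) (hP : Cop P) :
    mM (FY Φ P) ∈ LL (Real.log κ + m * Real.log 2 + Real.log (mM (FY Φ P))) := by
  have hF := FY_ne_zero Φ h hE P hP.exists_ne
  set F := FY Φ P with hFdef
  set P' : Fin r → MvPolynomial (Fin (k + 1)) ℤ := fun i => MvPolynomial.rename Fin.succ (P i)
    with hP'
  have hPc : Cop P' := cop_rename hP
  have hinj : Function.Injective (Fin.castAdd r : Fin (k + 1) → Fin (k + 1 + r)) :=
    Fin.castAdd_injective _ r
  have hF' := ren_ne_zero (Fin.castAdd r) hinj hF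
  have hrel := isRelPrime_pow_right hF' (relPrime_gen P' hPc F hF) (a + b)
  have hG0 : gen P' ^ (a + b) ≠ 0 := by
    intro h0
    have h1 : gen P' = 0 := pow_eq_zero_iff hab.ne' |>.mp h0
    have h4 := relPrime_gen P' hPc (2 : MvPolynomial (Fin (k + 1)) ℤ) (by
      intro h5
      have h6 := congrArg (MvPolynomial.eval (fun _ => (0 : ℤ))) h5
      rw [map_ofNat, map_zero] at h6
      norm_num at h6)
    rw [h1] at h4
    have h5 : IsUnit (MvPolynomial.rename (Fin.castAdd r) (2 : MvPolynomial (Fin (k + 1)) ℤ)) :=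
      h4 dvd_rfl (dvd_zero _)
    have h6 := h5.map (MvPolynomial.eval (fun _ : Fin (k + 1 + r) => (0 : ℤ)))
    rw [MvPolynomial.eval_rename] at h6
    simp only [map_ofNat] at h6
    exact absurd h6 (by rw [Int.isUnit_iff]; norm_num)
  refine ⟨k + 1 + r, by omega, MvPolynomial.rename (Fin.castAdd r) F, gen P' ^ (a + b), hF', hG0,
    hrel, ?_, (mM_ren _ hinj F).symm⟩
  set i0 : Fin (k + 1 + r) := Fin.castAdd r 0 with hi0
  obtain ⟨h1, h2⟩ := cube_slice' i0
    (fun t => Real.log ‖tv (MvPolynomial.rename (Fin.castAdd r) F) t‖) (F_integrable hF')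
  have hint1 : Integrable (fun t => (Real.log κ + m * Real.log 2) + ∫ w in Set.Icc (0 : ℝ) 1,
      Real.log ‖tv (MvPolynomial.rename (Fin.castAdd r) F) (Function.update t i0 w)‖)
      ((volume : Measure (Fin (k + 1 + r) → ℝ)).restrict (Set.Icc (0 : Fin (k + 1 + r) → ℝ) 1)) :=
    (integrable_const _).add h1
  have hval : (∫ t in Set.Icc (0 : Fin (k + 1 + r) → ℝ) 1,
      ((Real.log κ + m * Real.log 2) + ∫ w in Set.Icc (0 : ℝ) 1,
      Real.log ‖tv (MvPolynomial.rename (Fin.castAdd r) F) (Function.update t i0 w)‖)) =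
      Real.log κ + m * Real.log 2 + Real.log (mM F) := by
    rw [integral_add (integrable_const _) h1, h2, ← log_mM, mM_ren _ hinj, setIntegral_const,
      J.vol_cube, one_smul]
  rw [← hval]
  unfold mx
  refine setIntegral_mono_ae_restrict ?_ hint1 ?_
  · have h7 := K4_intk thM thM_cont thM_ge (MvPolynomial.rename (Fin.castAdd r) F)
      (gen P' ^ (a + b)) hF'
    have h8 : ∀ t : Fin (k + 1 + r) → ℝ,
        Real.log (max ‖tv (MvPolynomial.rename (Fin.castAdd r) F) t‖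
        ‖tv (gen P' ^ (a + b)) t‖) = 1 / 2 * Real.log (thM
          ‖tv (MvPolynomial.rename (Fin.castAdd r) F) t‖ ‖tv (gen P' ^ (a + b)) t‖) := by
      intro t
      rw [thM_log (norm_nonneg _) (norm_nonneg _)]
      ring
    simp only [h8]
    exact h7.const_mul (1 / 2)
  · filter_upwards [F_zero_null hF'] with t ht
    set s : Fin (k + 1) → ℝ := fun j => t (Fin.castAdd r j) with hs
    set x : Fin r → ℂ := fun i => tv (P i) fun j => s j.succ with hx
    have e1 : ‖tv (MvPolynomial.rename (Fin.castAdd r) F) t‖ = ‖phiY Φ x (s 0)‖ := by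
      rw [tv_ren, hFdef, norm_FY Φ h]
    have e2 : ∀ w, ‖tv (MvPolynomial.rename (Fin.castAdd r) F) (Function.update t i0 w)‖ =
        ‖phiY Φ x w‖ := by
      intro w
      rw [tv_ren, hFdef, norm_FY Φ h]
      have e3 : (fun j : Fin k => Function.update t i0 w (Fin.castAdd r j.succ)) =
          fun j => s j.succ := by
        funext j
        rw [Function.update_of_ne]
        intro hj
        have := (Fin.castAdd_injective (k + 1) r) hj
        exact Fin.succ_ne_zero j this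
      rw [e3, hi0, Function.update_self]
    have hx0 : x ≠ 0 := by
      intro h0
      apply ht
      rw [← norm_eq_zero, e1]
      have h9 := phiY_scale Φ h x 0 (s 0)
      have h10 : (fun i => (0 : ℂ) * x i) = x := by
        funext i
        rw [h0]
        simp
      rw [h10, norm_zero, zero_pow hab.ne', zero_mul] at h9
      exact h9
    have hM := (pp Φ x).mahlerMeasure_pos_of_ne_zero (pp_ne_zero Φ hE hx0)
    have e4 : ‖phiY Φ x (s 0)‖ ≤ 2 ^ m * (pp Φ x).mahlerMeasure := by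
      refine le_trans ?_ (sm_le Φ x)
      unfold phiY
      refine (norm_sum_le _ _).trans (Finset.sum_le_sum fun j _ => ?_)
      rw [norm_mul, norm_pow, D_norm_ez, one_pow, mul_one]
    have e5 : ‖tv (gen P' ^ (a + b)) t‖ ≤ (∑ i, ‖x i‖) ^ (a + b) := by
      have h3 : tv (gen P' ^ (a + b)) t = tv (gen P') t ^ (a + b) := by simp [tv]
      rw [h3, norm_pow]
      refine pow_le_pow_left₀ (norm_nonneg _) ?_ _
      have h4 : tv (gen P') t = ∑ i, ez (t (Fin.natAdd (k + 1) i)) * x i := by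
        unfold gen
        have h5 : ∀ i, tv (MvPolynomial.rename (Fin.castAdd r) (P' i)) t = x i := fun i => by
          rw [tv_ren, hP']
          simp only
          rw [J.tv_rename]
        simp only [← h5]
        simp [tv, ez]
      rw [h4]
      refine (norm_sum_le _ _).trans (Finset.sum_le_sum fun i _ => ?_)
      rw [norm_mul, D_norm_ez, one_mul]
    have h6 : (0 : ℝ) < 2 ^ m * (pp Φ x).mahlerMeasure := by positivity
    have e6 : (∑ i, ‖x i‖) ^ (a + b) ≤ κ * (2 ^ m * (pp Φ x).mahlerMeasure) :=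
      (hb x).trans (mul_le_mul_of_nonneg_left (sm_le Φ x) (by linarith))
    simp only [e2]
    rw [inner_eq, e1]
    have h7 : Real.log κ + m * Real.log 2 + Real.log (pp Φ x).mahlerMeasure =
        Real.log (κ * (2 ^ m * (pp Φ x).mahlerMeasure)) := by
      rw [Real.log_mul (by linarith) h6.ne', Real.log_mul (by positivity) hM.ne', Real.log_pow]
      ring
    rw [h7]
    have h8 : 0 < ‖phiY Φ x (s 0)‖ := by
      rw [← e1]
      exact norm_pos_iff.2 ht
    refine Real.log_le_log (lt_max_of_lt_left h8) (max_le ?_ (e5.trans e6))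
    nlinarith

theorem exists_kappaF {r : ℕ} (hr : 1 ≤ r) (Φ : Fin (m + 1) → MvPolynomial (Fin r ⊕ Fin r) ℤ)
    (h : BiHomF Φ a b) (hE : EllF Φ) (hab : 0 < a + b) : ∃ κ : ℝ, 1 ≤ κ ∧
      ∀ x : Fin r → ℂ, (∑ i, ‖x i‖) ^ (a + b) ≤ κ * sm Φ x := by
  have : Nonempty (Fin r) := ⟨⟨0, hr⟩⟩
  obtain ⟨c, hc, hb⟩ := sm_lower Φ h hE hab
  refine ⟨max 1 ((r : ℝ) ^ (a + b) / c), le_max_left _ _, fun x => ?_⟩
  have h1 : (∑ i, ‖x i‖) ^ (a + b) ≤ ((r : ℝ) * ‖x‖) ^ (a + b) := by
    refine pow_le_pow_left₀ (Finset.sum_nonneg fun _ _ => norm_nonneg _) ?_ _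
    calc (∑ i, ‖x i‖) ≤ ∑ _i : Fin r, ‖x‖ := Finset.sum_le_sum fun i _ => norm_le_pi_norm x i
      _ = r * ‖x‖ := by simp
  have h2 : 0 ≤ sm Φ x := Finset.sum_nonneg fun _ _ => norm_nonneg _
  calc (∑ i, ‖x i‖) ^ (a + b) ≤ (r : ℝ) ^ (a + b) * ‖x‖ ^ (a + b) := by rwa [mul_pow] at h1
    _ = ((r : ℝ) ^ (a + b) / c) * (c * ‖x‖ ^ (a + b)) := by field_simp
    _ ≤ ((r : ℝ) ^ (a + b) / c) * sm Φ x := mul_le_mul_of_nonneg_left (hb x) (by positivity)
    _ ≤ max 1 ((r : ℝ) ^ (a + b) / c) * sm Φ x :=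
      mul_le_mul_of_nonneg_right (le_max_right _ _) h2

/-- bounded companions -/
theorem BC_SFY {r : ℕ} (hr : 1 ≤ r) (Φ : Fin (m + 1) → MvPolynomial (Fin r ⊕ Fin r) ℤ)
    (h : BiHomF Φ a b) (hE : EllF Φ) (hab : 0 < a + b) : BC (SFY Φ) := by
  obtain ⟨κ, hκ, hb⟩ := exists_kappaF hr Φ h hE hab
  intro B
  refine ⟨Real.log κ + m * Real.log 2 + Real.log B, ?_⟩
  rintro x ⟨⟨k, P, hP, rfl⟩, hB⟩
  have h2 := mem_LL_FY Φ h hE hab κ hκ hb P hP
  refine LL_mono ?_ h2
  have h1 := one_le_of_LL h2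
  have h3 := Real.log_le_log (by linarith) (le_of_lt hB)
  linarith

/-- tuples whose common divisors have measure one -/
theorem reduce_essF {ι : Type} [Fintype ι] {k : ℕ} (Φ : Fin (m + 1) → MvPolynomial (ι ⊕ ι) ℤ)
    (h : BiHomF Φ a b) (hE : EllF Φ)
    (P : ι → MvPolynomial (Fin k) ℤ) (hP : ∀ D, (∀ i, D ∣ P i) → mM D = 1) :
    ∃ Q : ι → MvPolynomial (Fin k) ℤ, Cop Q ∧ mM (FY Φ P) = mM (FY Φ Q) := by
  have hne : ∃ i, P i ≠ 0 := by
    by_contra hcon
    push Not at hcon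
    have h1 := hP 2 fun i => by rw [hcon i]; exact dvd_zero _
    have h2 : mM (2 : MvPolynomial (Fin k) ℤ) = 2 := by
      unfold mM
      have h3 : ∀ t, tv (2 : MvPolynomial (Fin k) ℤ) t = 2 := fun t => by simp [tv]
      simp only [h3]
      rw [setIntegral_const, J.vol_cube]
      simp [Real.exp_log]
    rw [h2] at h1
    norm_num at h1
  obtain ⟨G, Q, hG, hGQ, hQ⟩ := exists_reduced P hne
  have hG1 : mM G = 1 := hP G fun i => ⟨Q i, hGQ i⟩
  refine ⟨Q, hQ, ?_⟩
  have hGr := J.rename_ne_zero hG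
  have hFQ := FY_ne_zero Φ h hE Q hQ.exists_ne
  have h1 : mM (FY Φ P) = mM (MvPolynomial.rename Fin.succ G ^ (a + b) * FY Φ Q) := by
    refine J.mM_congr fun t => ?_
    rw [norm_FY Φ h, J.tv_mul, norm_mul, norm_FY Φ h]
    have h2 : (fun i => tv (P i) fun j => t j.succ) =
        fun i => tv G (fun j => t j.succ) * tv (Q i) fun j => t j.succ := by
      funext i
      rw [hGQ i, J.tv_mul]
    have h3 : tv (MvPolynomial.rename Fin.succ G ^ (a + b)) t =
        tv G (fun j => t j.succ) ^ (a + b) := by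
      rw [← J.tv_rename]
      simp [tv]
    rw [h2, phiY_scale Φ h, h3, norm_pow]
  have h4 : ∀ n : ℕ, mM (MvPolynomial.rename Fin.succ G ^ n) = 1 := by
    intro n
    induction n with
    | zero =>
      rw [pow_zero]
      unfold mM
      simp [J.tv_one]
    | succ n ih => rw [pow_succ, mM_mul _ _ (pow_ne_zero _ hGr) hGr, ih, J.mM_rename, hG1, one_mul]
  rw [h1, mM_mul _ _ (pow_ne_zero _ hGr) hFQ, h4, one_mul]

end

end Pool.Agent.H2.DF
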