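import Pool.Agent.H2.DF.Comp

/-!
# The degree filtration
-/

set_option autoImplicit false

namespace Pool.Agent.H2.DF

open Polynomial Filter MeasureTheory Topology Pool.Agent.H261R2.CM Pool.Agent.W5h6.HS
  Pool.Agent.TH845.KN

noncomputable section

/-- the coordinate forms -/
def lin (m : ℕ) : Fin (m + 1) → MvPolynomial (Fin (m + 1) ⊕ Fin (m + 1)) ℤ :=
  fun j => MvPolynomial.X (Sum.inl j)

theorem phi_lin (m : ℕ) (j : Fin (m + 1)) (x : Fin (m + 1) → ℂ) : phi (lin m j) x = x j := by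
  simp [phi, lin]

theorem biHom_lin (m : ℕ) : BiHomF (lin m) 1 0 := by
  intro j s hs
  have h1 : s = Finsupp.single (Sum.inl j) 1 := by
    classical
    unfold lin at hs
    rw [MvPolynomial.support_X] at hs
    simpa using hs
  subst h1
  constructor
  · rw [Finset.sum_eq_single j]
    · simp
    · intro i _ hi
      rw [Finsupp.single_apply, if_neg]
      intro h
      exact hi (Sum.inl_injective h).symm
    · simp
  · refine Finset.sum_eq_zero fun i _ => ?_
    rw [Finsupp.single_apply, if_neg]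
    simp

theorem ell_lin (m : ℕ) : EllF (lin m) := by
  intro x hx
  obtain ⟨j, hj⟩ := Function.ne_iff.1 hx
  exact ⟨j, by rw [phi_lin]; exact hj⟩

theorem sm_lin (m : ℕ) (x : Fin (m + 1) → ℂ) : sm (lin m) x = ∑ i, ‖x i‖ := by
  unfold sm
  simp only [phi_lin]

theorem FY_lin {m k : ℕ} (P : Fin (m + 1) → MvPolynomial (Fin k) ℤ) :
    FY (lin m) P = ∑ j, MvPolynomial.rename Fin.succ (P j) * MvPolynomial.X 0 ^ (j : ℕ) := by
  unfold FY
  refine Finset.sum_congr rfl fun j _ => ?_
  have h1 : Fk (lin m j) P = P j := by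
    unfold Fk lin
    rw [MvPolynomial.aeval_X]
    rfl
  rw [h1]

theorem mem_LL_lin {m k : ℕ} (P : Fin (m + 1) → MvPolynomial (Fin k) ℤ) (hP : Cop P) :
    mM (FY (lin m) P) ∈ LL (Real.log (mM (FY (lin m) P)) + m * Real.log 2) := by
  have h := mem_LL_FY (lin m) (biHom_lin m) (ell_lin m) (by norm_num) 1 le_rfl
    (fun x => by rw [sm_lin]; simp) P hP
  refine LL_mono (le_of_eq ?_) h
  rw [Real.log_one]
  ring

theorem SFY_mono (m : ℕ) : SFY (lin m) ⊆ SFY (lin (m + 1)) := by
  rintro x ⟨k, P, hP, rfl⟩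
  refine ⟨k, Fin.snoc P 0, ?_, ?_⟩
  · intro D hD
    refine hP D fun i => ?_
    have h1 := hD (Fin.castSucc i)
    rwa [Fin.snoc_castSucc (α := fun _ => MvPolynomial (Fin k) ℤ)] at h1
  · rw [FY_lin, FY_lin, Fin.sum_univ_castSucc (n := m + 1)]
    congr 1
    simp only [Fin.snoc_castSucc (α := fun _ => MvPolynomial (Fin k) ℤ),
      Fin.snoc_last (α := fun _ => MvPolynomial (Fin k) ℤ), map_zero, zero_mul, add_zero,
      Fin.val_castSucc]

/-- the coefficients have no common divisor -/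
def Prim {k : ℕ} (F : MvPolynomial (Fin k) ℤ) : Prop :=
  ∀ d : ℤ, (∀ s, d ∣ F.coeff s) → IsUnit d

theorem Prim.ne_zero {k : ℕ} {F : MvPolynomial (Fin k) ℤ} (h : Prim F) : F ≠ 0 := by
  rintro rfl
  exact not_isUnit_zero (h 0 fun s => by simp)

/-- the exponents `e · s` -/
def dt {k : ℕ} (e : Fin k → ℕ) (s : Fin k →₀ ℕ) : ℕ := ∑ i, s i * e i

/-- exponents separating the monomials -/
theorem exists_sep {k : ℕ} (F : MvPolynomial (Fin k) ℤ) : ∃ e : Fin k → ℕ,
    ∀ s ∈ F.support, ∀ s' ∈ F.support, dt e s = dt e s' → s = s' := by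
  classical
  have h1 : ∀ᶠ n : ℕ in atTop, ∀ p ∈ (F.support ×ˢ F.support).filter (fun p => p.1 ≠ p.2),
      ∑ i, ((p.1 i : ℤ) - (p.2 i : ℤ)) * ((n ^ (i : ℕ) : ℕ) : ℤ) ≠ 0 := by
    rw [Finset.eventually_all]
    intro p hp
    refine asympIndep_pow k (fun i => (p.1 i : ℤ) - (p.2 i : ℤ)) ?_
    intro h0
    apply (Finset.mem_filter.1 hp).2
    ext i
    have := congrFun h0 i
    simp only [Pi.zero_apply] at this
    omega
  obtain ⟨n, hn⟩ := h1.exists
  refine ⟨fun i => n ^ (i : ℕ), fun s hs s' hs' heq => ?_⟩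
  by_contra hne
  refine hn (s, s') (Finset.mem_filter.2 ⟨Finset.mem_product.2 ⟨hs, hs'⟩, hne⟩) ?_
  simp only [sub_mul, Finset.sum_sub_distrib]
  unfold dt at heq
  have h2 : ((∑ i, s i * n ^ (i : ℕ) : ℕ) : ℤ) = ((∑ i, s' i * n ^ (i : ℕ) : ℕ) : ℤ) := by
    exact_mod_cast heq
  push_cast at h2 ⊢
  linarith

/-- the coefficient of `y^j` of `F(z y^e)` -/
def co {k : ℕ} (F : MvPolynomial (Fin k) ℤ) (e : Fin k → ℕ) (j : ℕ) : MvPolynomial (Fin k) ℤ :=
  ∑ s ∈ F.support, if dt e s = j then MvPolynomial.monomial s (F.coeff s) else 0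

theorem co_at {k : ℕ} {F : MvPolynomial (Fin k) ℤ} {e : Fin k → ℕ}
    (he : ∀ s ∈ F.support, ∀ s' ∈ F.support, dt e s = dt e s' → s = s') {s : Fin k →₀ ℕ}
    (hs : s ∈ F.support) : co F e (dt e s) = MvPolynomial.monomial s (F.coeff s) := by
  unfold co
  rw [Finset.sum_eq_single s]
  · simp
  · intro s' hs' hne
    rw [if_neg]
    intro h
    exact hne (he s' hs' s hs h)
  · intro h
    exact absurd hs h

/-- `F` with the variables multiplied by powers of a new one -/
theorem spec_co {k m : ℕ} (F : MvPolynomial (Fin k) ℤ) (e : Fin k → ℕ)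
    (hm : ∀ s ∈ F.support, dt e s ≤ m) (f : Fin k → ℕ) (N : ℕ) :
    spec (Fin.cons N f) (FY (lin m) fun j => co F e j) = spec (fun i => f i + N * e i) F := by
  have hX : spec (Fin.cons N f : Fin (k + 1) → ℕ) (MvPolynomial.X 0) = X ^ N := by
    simp [spec]
  have hr : ∀ A : MvPolynomial (Fin k) ℤ,
      spec (Fin.cons N f : Fin (k + 1) → ℕ) (MvPolynomial.rename Fin.succ A) = spec f A := by
    intro A
    unfold spec
    rw [MvPolynomial.aeval_rename]
    congr 1
  rw [FY_lin, map_sum, F_spec_eq]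
  simp only [map_mul, map_pow, hX, hr]
  have h1 : ∀ j : Fin (m + 1), spec f (co F e j) * (X ^ N) ^ (j : ℕ) =
      ∑ s ∈ F.support, if dt e s = j then
        Polynomial.C (F.coeff s) * X ^ (∑ i, s i * (f i + N * e i)) else 0 := by
    intro j
    unfold co
    rw [map_sum, Finset.sum_mul]
    refine Finset.sum_congr rfl fun s _ => ?_
    split_ifs with h
    · rw [TG.spec_monomial, mul_assoc, ← pow_mul, ← pow_add, ← h]
      congr 2
      unfold dt
      rw [Finset.mul_sum, ← Finset.sum_add_distrib]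
      refine Finset.sum_congr rfl fun i _ => ?_
      ring
    · rw [map_zero, zero_mul]
  simp only [h1]
  rw [Finset.sum_comm]
  refine Finset.sum_congr rfl fun s hs => ?_
  rw [Finset.sum_eq_single (⟨dt e s, by have := hm s hs; omega⟩ : Fin (m + 1))]
  · simp
  · intro j _ hj
    rw [if_neg]
    intro h
    exact hj (Fin.ext h.symm)
  · simp

theorem mM_co {k m : ℕ} (F : MvPolynomial (Fin k) ℤ) (hF : F ≠ 0) (e : Fin k → ℕ)
    (he : ∀ s ∈ F.support, ∀ s' ∈ F.support, dt e s = dt e s' → s = s')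
    (hm : ∀ s ∈ F.support, dt e s ≤ m) : mM (FY (lin m) fun j => co F e j) = mM F := by
  obtain ⟨s, hs⟩ := MvPolynomial.support_nonempty.2 hF
  have hne : (fun j : Fin (m + 1) => co F e j) ⟨dt e s, by have := hm s hs; omega⟩ ≠ 0 := by
    simp only
    rw [co_at he hs, Ne, MvPolynomial.monomial_eq_zero]
    exact MvPolynomial.mem_support_iff.1 hs
  have hFY := FY_ne_zero (lin m) (biHom_lin m) (ell_lin m) (fun j => co F e j) ⟨_, hne⟩
  set f : ℕ → Fin k → ℕ := fun n i => n ^ (i : ℕ) with hf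
  have hf1 : AsympIndep atTop f := asympIndep_pow k
  set N : ℕ → ℕ := fun n => n * (1 + ∑ i, f n i) + 1 with hN
  have hc : AsympIndep atTop (fun n => (Fin.cons (N n) (f n) : Fin (k + 1) → ℕ)) := by
    refine asymp_cons hf1 fun M => ?_
    filter_upwards [eventually_ge_atTop M] with n hn
    rw [hN]
    exact Nat.lt_succ_of_le (Nat.mul_le_mul_right _ hn)
  have h2 : AsympIndep atTop (fun n i => f n i + N n * e i) := by
    intro s hs
    have h3 : (Fin.cons (∑ i, s i * (e i : ℤ)) s : Fin (k + 1) → ℤ) ≠ 0 := by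
      intro h
      apply hs
      funext i
      have := congrFun h i.succ
      simpa using this
    filter_upwards [hc _ h3] with n hn
    intro h0
    apply hn
    rw [Fin.sum_univ_succ]
    simp only [Fin.cons_zero, Fin.cons_succ]
    rw [← h0, Finset.sum_mul, ← Finset.sum_add_distrib]
    refine Finset.sum_congr rfl fun i _ => ?_
    push_cast
    ring
  have h3 := m1_lim atTop _ hc _ hFY
  have h4 := m1_lim atTop _ h2 F hF
  refine tendsto_nhds_unique h3 (h4.congr fun n => ?_)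
  rw [spec_co F e hm]

theorem prim_mem {k : ℕ} (F : MvPolynomial (Fin k) ℤ) (hF : Prim F) :
    ∃ m, mM F ∈ SFY (lin m) := by
  classical
  obtain ⟨e, he⟩ := exists_sep F
  set m : ℕ := F.support.sup (dt e) with hm
  have hm' : ∀ s ∈ F.support, dt e s ≤ m := fun s hs => Finset.le_sup hs
  have hess : ∀ D : MvPolynomial (Fin k) ℤ, (∀ j : Fin (m + 1), D ∣ co F e j) → mM D = 1 := by
    intro D hD
    have h1 : ∀ s ∈ F.support, D ∣ MvPolynomial.monomial s (F.coeff s) := fun s hs => by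
      rw [← co_at he hs]
      exact hD ⟨dt e s, by have := hm' s hs; omega⟩
    obtain ⟨s0, hs0⟩ := MvPolynomial.support_nonempty.2 hF.ne_zero
    obtain ⟨q, d, _, _, hD'⟩ := (MvPolynomial.dvd_monomial_iff_exists
      (MvPolynomial.mem_support_iff.1 hs0)).1 (h1 s0 hs0)
    subst hD'
    have h2 : IsUnit d := by
      refine hF d fun s => ?_
      by_cases hs : s ∈ F.support
      · obtain ⟨W, hW⟩ := h1 s hs
        have h3 := congrArg (MvPolynomial.coeff s) hW
        rw [MvPolynomial.coeff_monomial, if_pos rfl, MvPolynomial.coeff_monomial_mul'] at h3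
        rw [h3]
        split_ifs
        · exact dvd_mul_right _ _
        · exact dvd_zero _
      · rw [MvPolynomial.notMem_support_iff.1 hs]
        exact dvd_zero _
    refine J.mM_of_norm_const one_pos fun t => ?_
    rw [J.tv_monomial]
    rcases Int.isUnit_iff.1 h2 with h4 | h4
    · rw [h4]
      simp [J.norm_zz]
    · rw [h4]
      simp [J.norm_zz]
  obtain ⟨Q, hQ, h1⟩ := reduce_essF (lin m) (biHom_lin m) (ell_lin m) (fun j => co F e j) hess
  exact ⟨m, k, Q, hQ, by rw [← h1, mM_co F hF.ne_zero e he hm']⟩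

/-- **every measure is in one of the sets** -/
theorem all_mem {k : ℕ} (F : MvPolynomial (Fin k) ℤ) (hF : F ≠ 0) : ∃ m, mM F ∈ SFY (lin m) := by
  classical
  obtain ⟨s0, hs0⟩ := MvPolynomial.support_nonempty.2 hF
  obtain ⟨G, q, hG, h1, h2⟩ := exists_reduced (R := ℤ) (fun s : F.support => F.coeff s)
    ⟨⟨s0, hs0⟩, MvPolynomial.mem_support_iff.1 hs0⟩
  -- the primitive part
  obtain ⟨F0, hF0⟩ : ∃ F0 : MvPolynomial (Fin k) ℤ, F = MvPolynomial.C G * F0 := by
    have : MvPolynomial.C G ∣ F := by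
      rw [MvPolynomial.C_dvd_iff_dvd_coeff]
      intro s
      by_cases hs : s ∈ F.support
      · exact ⟨q ⟨s, hs⟩, h1 ⟨s, hs⟩⟩
      · rw [MvPolynomial.notMem_support_iff.1 hs]
        exact dvd_zero _
    exact this
  have hprim : Prim F0 := by
    intro d hd
    refine h2 d fun s => ?_
    have h3 : G * q s = G * F0.coeff s := by
      have h4 := congrArg (MvPolynomial.coeff (s : Fin k →₀ ℕ)) hF0
      rw [MvPolynomial.coeff_C_mul] at h4
      exact (h1 s).symm.trans h4
    rw [mul_left_cancel₀ hG h3]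
    exact hd s
  have hF00 := hprim.ne_zero
  have hmM : mM F = (G.natAbs : ℝ) * mM F0 := by
    rw [hF0, mM_mul _ _ (by rwa [Ne, MvPolynomial.C_eq_zero]) hF00, J.mM_C hG]
  have hG1 : 1 ≤ G.natAbs := Int.natAbs_pos.2 hG
  rcases Nat.lt_or_ge G.natAbs 2 with h | h
  · have h3 : G.natAbs = 1 := by omega
    rw [hmM, h3, Nat.cast_one, one_mul]
    exact prim_mem F0 hprim
  · have h3 : mM (MvPolynomial.rename Fin.succ F0 * J.LL k G.natAbs) = mM F := by
      rw [mM_mul _ _ (J.rename_ne_zero hF00) (J.LL_ne_zero _), J.mM_rename, J.mM_LL h, hmM,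
        mul_comm]
    rw [← h3]
    refine prim_mem _ ?_
    intro d hd
    rw [← MvPolynomial.C_dvd_iff_dvd_coeff] at hd
    by_contra hu
    obtain ⟨p, hp, hpd⟩ := Int.exists_prime_and_dvd (by
      intro h4
      exact hu (Int.isUnit_iff_natAbs_eq.2 h4))
    have h4 : Prime (MvPolynomial.C p : MvPolynomial (Fin (k + 1)) ℤ) :=
      (MvPolynomial.prime_C_iff _).2 hp
    have h5 : (MvPolynomial.C p : MvPolynomial (Fin (k + 1)) ℤ) ∣
        MvPolynomial.rename Fin.succ F0 * J.LL k G.natAbs :=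
      (_root_.map_dvd MvPolynomial.C hpd).trans hd
    rcases h4.dvd_or_dvd h5 with h6 | h6
    · have h7 := map_dvd (J.retr (k := k)) h6
      rw [J.retr_rename] at h7
      have h8 : (J.retr (k := k)) (MvPolynomial.C p) = MvPolynomial.C p := by
        simp [J.retr]
      rw [h8, MvPolynomial.C_dvd_iff_dvd_coeff] at h7
      exact hp.not_isUnit (hprim p h7)
    · rw [MvPolynomial.C_dvd_iff_dvd_coeff] at h6
      have h7 := h6 (Finsupp.single 0 1)
      rw [J.coeff_LL] at h7
      exact hp.not_isUnit (isUnit_of_dvd_one h7)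

end

end Pool.Agent.H2.DF
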