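import Pool.Agent.H2.L.R_pool_sql_team_seeded_9f66d723.W5h6.HS.Gram
import Pool.Agent.H2.L.R_seed8.H261R2.CM.K8

/-!
# Families of bihomogeneous forms without common zero
-/

set_option autoImplicit false

namespace Pool.Agent.H2.DF

open Polynomial Filter MeasureTheory Topology Pool.Agent.H261R2.CM Pool.Agent.W5h6.HS
open scoped ComplexConjugate

noncomputable section

variable {ι : Type} [Fintype ι] {m a b : ℕ}

/-- no common zero at `(x, conj x)`, `x ≠ 0` -/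
def EllF (Φ : Fin (m + 1) → MvPolynomial (ι ⊕ ι) ℤ) : Prop :=
  ∀ x : ι → ℂ, x ≠ 0 → ∃ j, phi (Φ j) x ≠ 0

/-- all members have the bidegree `(a, b)` -/
def BiHomF (Φ : Fin (m + 1) → MvPolynomial (ι ⊕ ι) ℤ) (a b : ℕ) : Prop := ∀ j, BiHom (Φ j) a b

/-- the value at `x`, `y = e(w)` -/
def phiY (Φ : Fin (m + 1) → MvPolynomial (ι ⊕ ι) ℤ) (x : ι → ℂ) (w : ℝ) : ℂ :=
  ∑ j, phi (Φ j) x * ez w ^ (j : ℕ)

/-- the polynomial in `y` -/
def pp (Φ : Fin (m + 1) → MvPolynomial (ι ⊕ ι) ℤ) (x : ι → ℂ) : ℂ[X] :=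
  ∑ j, C (phi (Φ j) x) * X ^ (j : ℕ)

omit [Fintype ι] in
theorem pp_eval (Φ : Fin (m + 1) → MvPolynomial (ι ⊕ ι) ℤ) (x : ι → ℂ) (w : ℝ) :
    (pp Φ x).eval (ez w) = phiY Φ x w := by
  unfold pp phiY
  rw [Polynomial.eval_finsetSum]
  refine Finset.sum_congr rfl fun j _ => ?_
  simp

omit [Fintype ι] in
theorem pp_coeff (Φ : Fin (m + 1) → MvPolynomial (ι ⊕ ι) ℤ) (x : ι → ℂ) (j : Fin (m + 1)) :
    (pp Φ x).coeff j = phi (Φ j) x := by
  unfold pp
  rw [Polynomial.finsetSum_coeff, Finset.sum_eq_single j]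
  · simp
  · intro i _ hi
    rw [Polynomial.coeff_C_mul, Polynomial.coeff_X_pow, if_neg, mul_zero]
    intro h
    exact hi (Fin.ext h.symm)
  · simp

omit [Fintype ι] in
theorem pp_deg (Φ : Fin (m + 1) → MvPolynomial (ι ⊕ ι) ℤ) (x : ι → ℂ) :
    (pp Φ x).natDegree ≤ m := by
  unfold pp
  refine Polynomial.natDegree_sum_le_of_forall_le _ _ fun j _ => ?_
  refine (Polynomial.natDegree_C_mul_X_pow_le _ _).trans ?_
  omega

theorem phi_scale' (Φ : MvPolynomial (ι ⊕ ι) ℤ) (h : BiHom Φ a b) (x : ι → ℂ) (q : ℂ) :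
    phi Φ (fun i => q * x i) = q ^ a * conj q ^ b * phi Φ x := by
  unfold phi
  have h1 : (fun i => conj (q * x i)) = fun i => conj q * conj (x i) := by
    funext i
    rw [map_mul]
  rw [h1, eval_scale Φ h]

theorem phiY_scale (Φ : Fin (m + 1) → MvPolynomial (ι ⊕ ι) ℤ) (h : BiHomF Φ a b) (x : ι → ℂ)
    (q : ℂ) (w : ℝ) : ‖phiY Φ (fun i => q * x i) w‖ = ‖q‖ ^ (a + b) * ‖phiY Φ x w‖ := by
  have h1 : phiY Φ (fun i => q * x i) w = q ^ a * conj q ^ b * phiY Φ x w := by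
    unfold phiY
    rw [Finset.mul_sum]
    refine Finset.sum_congr rfl fun j _ => ?_
    rw [phi_scale' (Φ j) (h j)]
    ring
  rw [h1, norm_mul, norm_mul, norm_pow, norm_pow, RCLike.norm_conj, pow_add]

/-- the sum of the absolute values of the forms -/
def sm (Φ : Fin (m + 1) → MvPolynomial (ι ⊕ ι) ℤ) (x : ι → ℂ) : ℝ := ∑ j, ‖phi (Φ j) x‖

theorem sm_scale (Φ : Fin (m + 1) → MvPolynomial (ι ⊕ ι) ℤ) (h : BiHomF Φ a b) (x : ι → ℂ)
    (q : ℂ) : sm Φ (fun i => q * x i) = ‖q‖ ^ (a + b) * sm Φ x := by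
  unfold sm
  rw [Finset.mul_sum]
  exact Finset.sum_congr rfl fun j _ => phi_scale (Φ j) (h j) x q

omit [Fintype ι] in
theorem sm_pos (Φ : Fin (m + 1) → MvPolynomial (ι ⊕ ι) ℤ) (hE : EllF Φ) {x : ι → ℂ}
    (hx : x ≠ 0) : 0 < sm Φ x := by
  obtain ⟨j, hj⟩ := hE x hx
  exact Finset.sum_pos' (fun _ _ => norm_nonneg _) ⟨j, Finset.mem_univ j, norm_pos_iff.2 hj⟩

theorem sm_lower [Nonempty ι] (Φ : Fin (m + 1) → MvPolynomial (ι ⊕ ι) ℤ) (h : BiHomF Φ a b)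
    (hE : EllF Φ) (hab : 0 < a + b) : ∃ c : ℝ, 0 < c ∧ ∀ x : ι → ℂ, c * ‖x‖ ^ (a + b) ≤ sm Φ x := by
  have hcomp : IsCompact (Metric.sphere (0 : ι → ℂ) 1) := isCompact_sphere 0 1
  have hne : (Metric.sphere (0 : ι → ℂ) 1).Nonempty := ⟨fun _ => 1, by simp⟩
  have hcont : Continuous (sm Φ) := by
    unfold sm
    exact continuous_finsetSum _ fun j _ => (phi_cont (Φ j)).norm
  obtain ⟨x0, hx0, hmin⟩ := hcomp.exists_isMinOn hne hcont.continuousOn
  have hx0' : ‖x0‖ = 1 := by simpa using hx0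
  have hx00 : x0 ≠ 0 := by
    rintro rfl
    simp at hx0'
  refine ⟨sm Φ x0, sm_pos Φ hE hx00, fun x => ?_⟩
  by_cases hx : x = 0
  · subst hx
    rw [norm_zero, zero_pow hab.ne', mul_zero]
    exact Finset.sum_nonneg fun _ _ => norm_nonneg _
  · have hnx : 0 < ‖x‖ := norm_pos_iff.mpr hx
    set y : ι → ℂ := fun i => ((‖x‖⁻¹ : ℝ) : ℂ) * x i with hy
    have hyn : ‖y‖ = 1 := by
      have : y = ((‖x‖⁻¹ : ℝ) : ℂ) • x := by
        funext i
        simp [hy]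
      rw [this, norm_smul, Complex.norm_real, norm_inv, norm_norm, inv_mul_cancel₀ hnx.ne']
    have h1 : sm Φ x0 ≤ sm Φ y := hmin (by simpa using hyn)
    have h2 : x = fun i => ((‖x‖ : ℝ) : ℂ) * y i := by
      funext i
      simp only [hy]
      rw [← mul_assoc, ← Complex.ofReal_mul, mul_inv_cancel₀ hnx.ne']
      simp
    have h3 := sm_scale Φ h y ((‖x‖ : ℝ) : ℂ)
    rw [← h2, Complex.norm_real, norm_norm] at h3
    rw [h3, mul_comm]
    exact mul_le_mul_of_nonneg_left h1 (by positivity)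

omit [Fintype ι] in
/-- the forms are bounded by the Mahler measure in `y` -/
theorem sm_le (Φ : Fin (m + 1) → MvPolynomial (ι ⊕ ι) ℤ) (x : ι → ℂ) :
    (∑ j, ‖phi (Φ j) x‖) ≤ 2 ^ m * (pp Φ x).mahlerMeasure := by
  have h1 : ∀ j : Fin (m + 1), ‖phi (Φ j) x‖ ≤ (m.choose j : ℝ) * (pp Φ x).mahlerMeasure := by
    intro j
    rw [← pp_coeff]
    refine (Polynomial.norm_coeff_le_choose_mul_mahlerMeasure (j : ℕ) (pp Φ x)).trans ?_
    refine mul_le_mul_of_nonneg_right ?_ (Polynomial.mahlerMeasure_nonneg _)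
    exact_mod_cast Nat.choose_le_choose (j : ℕ) (pp_deg Φ x)
  refine (Finset.sum_le_sum fun j _ => h1 j).trans (le_of_eq ?_)
  rw [← Finset.sum_mul, Fin.sum_univ_eq_sum_range (fun j => (m.choose j : ℝ)), ← Nat.cast_sum,
    Nat.sum_range_choose]
  push_cast
  rfl

omit [Fintype ι] in
theorem pp_ne_zero (Φ : Fin (m + 1) → MvPolynomial (ι ⊕ ι) ℤ) (hE : EllF Φ) {x : ι → ℂ}
    (hx : x ≠ 0) : pp Φ x ≠ 0 := by
  obtain ⟨j, hj⟩ := hE x hx
  intro h0
  rw [← pp_coeff, h0, Polynomial.coeff_zero] at hj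
  exact hj rfl

/-- a polynomial which vanishes on the circle is zero -/
theorem exists_ez_ne {p : ℂ[X]} (hp : p ≠ 0) : ∃ w : ℝ, p.eval (ez w) ≠ 0 := by
  by_contra hcon
  push Not at hcon
  have h1 := parseval p
  simp only [hcon, norm_zero] at h1
  have h2 : ∑ j ∈ p.support, ‖p.coeff j‖ ^ 2 = 0 := by
    rw [h1]
    simp
  obtain ⟨j, hj⟩ := Polynomial.support_nonempty.2 hp
  have h3 := (Finset.sum_eq_zero_iff_of_nonneg fun i _ => sq_nonneg (‖p.coeff i‖)).1 h2 j hj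
  rw [Polynomial.mem_support_iff] at hj
  exact hj (norm_eq_zero.1 (pow_eq_zero_iff (two_ne_zero)|>.1 h3))

/-! ### several variables -/

theorem tv_Fk {k : ℕ} (Φ : MvPolynomial (ι ⊕ ι) ℤ) (h : BiHom Φ a b)
    (P : ι → MvPolynomial (Fin k) ℤ) (t : Fin k → ℝ) :
    tv (Fk Φ P) t = (∏ j, ez (t j) ^ (Finset.univ.sup fun i => (P i).degreeOf j)) ^ b *
      phi Φ fun i => tv (P i) t := by
  set d : Fin k → ℕ := fun j => Finset.univ.sup fun i => (P i).degreeOf j with hd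
  have h1 : tv (Fk Φ P) t = MvPolynomial.eval (Sum.elim (fun i => (1 : ℂ) * tv (P i) t)
      fun i => (∏ j, ez (t j) ^ d j) * conj (tv (P i) t)) (MvPolynomial.map (Int.castRingHom ℂ) Φ) := by
    have h2 : ∀ i, (∏ j, ez (t j) ^ d j) * conj (tv (P i) t) =
        tv (Pool.Agent.W5h6.HS.rv d (P i)) t := fun i =>
      (Pool.Agent.W5h6.HS.tv_rv d (P i) (fun j => Finset.le_sup (f := fun i => (P i).degreeOf j)
        (Finset.mem_univ i)) t).symm
    simp only [h2, one_mul]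
    have h3 : ((MvPolynomial.eval (fun j : Fin k =>
        Complex.exp (2 * (Real.pi : ℂ) * Complex.I * ((t j : ℝ) : ℂ)))).comp
          (MvPolynomial.map (Int.castRingHom ℂ))).comp
        ((MvPolynomial.aeval (Sum.elim P fun i => Pool.Agent.W5h6.HS.rv d (P i)) :
          MvPolynomial (ι ⊕ ι) ℤ →ₐ[ℤ] MvPolynomial (Fin k) ℤ) :
          MvPolynomial (ι ⊕ ι) ℤ →+* MvPolynomial (Fin k) ℤ) =
        (MvPolynomial.eval (Sum.elim (fun i => tv (P i) t)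
          fun i => tv (Pool.Agent.W5h6.HS.rv d (P i)) t)).comp
          (MvPolynomial.map (Int.castRingHom ℂ)) := by
      apply MvPolynomial.ringHom_ext
      · intro r
        simp
      · intro i
        rcases i with i | i
        · simp [tv]
        · simp [tv]
    exact DFunLike.congr_fun h3 Φ
  rw [h1, eval_scale Φ h, one_pow, one_mul]
  rfl

theorem ev1_F1 (Φ : MvPolynomial (ι ⊕ ι) ℤ) (h : BiHom Φ a b) (A : ι → ℤ[X]) (t : ℝ) :
    ev1 (F1 Φ A) t = (ez t ^ (Finset.univ.sup fun i => (A i).natDegree)) ^ b *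
      phi Φ fun i => ev1 (A i) t := by
  set N := Finset.univ.sup fun i => (A i).natDegree with hN
  have h1 : ev1 (F1 Φ A) t = MvPolynomial.eval (Sum.elim (fun i => (1 : ℂ) * ev1 (A i) t)
      fun i => ez t ^ N * conj (ev1 (A i) t)) (MvPolynomial.map (Int.castRingHom ℂ) Φ) := by
    have h2 : ∀ i, ez t ^ N * conj (ev1 (A i) t) = ev1 ((A i).reflect N) t := fun i =>
      (ev1_reflect N (A i) (Finset.le_sup (f := fun i => (A i).natDegree) (Finset.mem_univ i)) t).symm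
    simp only [h2, one_mul]
    have h3 : ((Polynomial.evalRingHom (ez t)).comp (Polynomial.mapRingHom (Int.castRingHom ℂ))).comp
        ((MvPolynomial.aeval (Sum.elim A fun i => (A i).reflect N) :
          MvPolynomial (ι ⊕ ι) ℤ →ₐ[ℤ] ℤ[X]) : MvPolynomial (ι ⊕ ι) ℤ →+* ℤ[X]) =
        (MvPolynomial.eval (Sum.elim (fun i => ev1 (A i) t) fun i => ev1 ((A i).reflect N) t)).comp
          (MvPolynomial.map (Int.castRingHom ℂ)) := by
      apply MvPolynomial.ringHom_ext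
      · intro r
        simp
      · intro i
        rcases i with i | i
        · simp [ev1, toC]
        · simp [ev1, toC]
    exact DFunLike.congr_fun h3 Φ
  rw [h1, eval_scale Φ h, one_pow, one_mul]
  rfl

/-- the polynomial `∑ Φ_j(P, P^*) y^j` in `k + 1` variables, `y` the variable `0` -/
def FY {k : ℕ} (Φ : Fin (m + 1) → MvPolynomial (ι ⊕ ι) ℤ) (P : ι → MvPolynomial (Fin k) ℤ) :
    MvPolynomial (Fin (k + 1)) ℤ :=
  ∑ j, MvPolynomial.rename Fin.succ (Fk (Φ j) P) * MvPolynomial.X 0 ^ (j : ℕ)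

/-- the one variable polynomial `∑ Φ_j(A, A^*) X^(N j)` -/
def FN (Φ : Fin (m + 1) → MvPolynomial (ι ⊕ ι) ℤ) (A : ι → ℤ[X]) (N : ℕ) : ℤ[X] :=
  ∑ j, F1 (Φ j) A * X ^ (N * (j : ℕ))

theorem norm_FY {k : ℕ} (Φ : Fin (m + 1) → MvPolynomial (ι ⊕ ι) ℤ) (h : BiHomF Φ a b)
    (P : ι → MvPolynomial (Fin k) ℤ) (t : Fin (k + 1) → ℝ) :
    ‖tv (FY Φ P) t‖ = ‖phiY Φ (fun i => tv (P i) fun j => t j.succ) (t 0)‖ := by
  set u : ℂ := (∏ j, ez ((fun j : Fin k => t j.succ) j) ^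
    (Finset.univ.sup fun i => (P i).degreeOf j)) ^ b with hu
  have h1 : tv (FY Φ P) t = u * phiY Φ (fun i => tv (P i) fun j => t j.succ) (t 0) := by
    have e1 : tv (FY Φ P) t = ∑ j, tv (MvPolynomial.rename Fin.succ (Fk (Φ j) P)) t *
        ez (t 0) ^ (j : ℕ) := by
      unfold FY
      simp [tv, ez]
    rw [e1]
    unfold phiY
    rw [Finset.mul_sum]
    refine Finset.sum_congr rfl fun j _ => ?_
    rw [J.tv_rename, tv_Fk (Φ j) (h j), ← hu]
    ring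
  have h2 : ‖u‖ = 1 := by
    rw [hu, norm_pow, norm_prod]
    simp [D_norm_ez]
  rw [h1, norm_mul, h2, one_mul]

theorem norm_FN (Φ : Fin (m + 1) → MvPolynomial (ι ⊕ ι) ℤ) (h : BiHomF Φ a b) (A : ι → ℤ[X])
    (N : ℕ) (t : ℝ) : ‖ev1 (FN Φ A N) t‖ = ‖phiY Φ (fun i => ev1 (A i) t) (N * t)‖ := by
  set u : ℂ := (ez t ^ (Finset.univ.sup fun i => (A i).natDegree)) ^ b with hu
  have hez : ez (N * t) = ez t ^ N := by
    unfold ez
    rw [← Complex.exp_nat_mul]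
    congr 1
    push_cast
    ring
  have h1 : ev1 (FN Φ A N) t = u * phiY Φ (fun i => ev1 (A i) t) (N * t) := by
    have e1 : ev1 (FN Φ A N) t = ∑ j, ev1 (F1 (Φ j) A) t * ez t ^ (N * (j : ℕ)) := by
      unfold FN ev1 toC
      rw [Polynomial.map_sum, Polynomial.eval_finsetSum]
      simp
    rw [e1]
    unfold phiY
    rw [Finset.mul_sum]
    refine Finset.sum_congr rfl fun j _ => ?_
    rw [ev1_F1 (Φ j) (h j), ← hu, hez, pow_mul]
    ring
  have h2 : ‖u‖ = 1 := by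
    rw [hu, norm_pow, norm_pow, D_norm_ez, one_pow, one_pow]
  rw [h1, norm_mul, h2, one_mul]

/-- the cube is not null -/
theorem exists_tv_ne {k : ℕ} {P : MvPolynomial (Fin k) ℤ} (hP : P ≠ 0) : ∃ t, tv P t ≠ 0 := by
  by_contra hcon
  push Not at hcon
  have h3 := (F_zero_null hP).and (Eventually.of_forall hcon)
  have h4 : ∀ᵐ t ∂(volume.restrict (Set.Icc (0 : Fin k → ℝ) 1)), False :=
    h3.mono fun t ht => ht.1 ht.2
  rw [ae_iff] at h4
  simp only [not_false_eq_true] at h4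
  have h5 : (volume.restrict (Set.Icc (0 : Fin k → ℝ) 1)) Set.univ = 0 := by
    rw [← h4]
    congr 1
  rw [Measure.restrict_apply_univ, Real.volume_Icc_pi] at h5
  simp at h5

theorem FY_ne_zero {k : ℕ} (Φ : Fin (m + 1) → MvPolynomial (ι ⊕ ι) ℤ) (h : BiHomF Φ a b)
    (hE : EllF Φ) (P : ι → MvPolynomial (Fin k) ℤ) (hP : ∃ i, P i ≠ 0) : FY Φ P ≠ 0 := by
  obtain ⟨i, hi⟩ := hP
  obtain ⟨s, hs⟩ := exists_tv_ne hi
  have hx : (fun i => tv (P i) s) ≠ 0 := fun h4 => hs (congrFun h4 i)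
  obtain ⟨w, hw⟩ := exists_ez_ne (pp_ne_zero Φ hE hx)
  rw [pp_eval] at hw
  intro h0
  have h1 := norm_FY Φ h P (Fin.cons w s)
  rw [h0, tv_zero, norm_zero] at h1
  simp only [Fin.cons_succ, Fin.cons_zero] at h1
  exact hw (norm_eq_zero.1 h1.symm)

theorem m1_congr' {A B : ℤ[X]} (h : ∀ t, ‖ev1 A t‖ = ‖ev1 B t‖) : m1 A = m1 B := by
  have key : ∀ A B : ℤ[X], (∀ t, ‖ev1 A t‖ = ‖ev1 B t‖) → A = 0 → B = 0 := by
    intro A B h hA
    by_contra hB
    obtain ⟨t, ht⟩ := (D_ae_ne B hB).exists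
    have h1 := h t
    rw [hA] at h1
    have h2 : ev1 (0 : ℤ[X]) t = 0 := by simp [ev1, toC]
    rw [h2, norm_zero] at h1
    exact ht (norm_eq_zero.1 h1.symm)
  by_cases hA : A = 0
  · rw [hA, key A B h hA]
  · by_cases hB : B = 0
    · exact absurd (key B A (fun t => (h t).symm) hB) hA
    · exact m1_congr hA hB h

theorem m1_pow (Q : ℤ[X]) (n : ℕ) : m1 (Q ^ n) = m1 Q ^ n := by
  induction n with
  | zero => simp [m1, toC]
  | succ n ih => rw [pow_succ, I1_m1_mul, ih, pow_succ]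

theorem m1_FN_mul (Φ : Fin (m + 1) → MvPolynomial (ι ⊕ ι) ℤ) (h : BiHomF Φ a b)
    (A B : ι → ℤ[X]) (Q : ℤ[X]) (hB : ∀ i, B i = Q * A i) (N : ℕ) :
    m1 (FN Φ B N) = m1 Q ^ (a + b) * m1 (FN Φ A N) := by
  rw [← m1_pow, ← I1_m1_mul]
  refine m1_congr' fun t => ?_
  rw [norm_FN Φ h, I1_ev1_mul, norm_mul, norm_FN Φ h]
  have h2 : (fun i => ev1 (B i) t) = fun i => ev1 Q t * ev1 (A i) t := by
    funext i
    rw [hB i, I1_ev1_mul]
  have h3 : ev1 (Q ^ (a + b)) t = ev1 Q t ^ (a + b) := by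
    unfold ev1 toC
    rw [Polynomial.map_pow, Polynomial.eval_pow]
  rw [h2, phiY_scale Φ h, h3, norm_pow]

theorem m1_spec_FY {k : ℕ} (Φ : Fin (m + 1) → MvPolynomial (ι ⊕ ι) ℤ) (h : BiHomF Φ a b)
    (P : ι → MvPolynomial (Fin k) ℤ) (e : Fin k → ℕ) (N : ℕ) :
    m1 (spec (Fin.cons N e) (FY Φ P)) = m1 (FN Φ (fun i => spec e (P i)) N) := by
  refine m1_congr' fun t => ?_
  rw [F_ev1, norm_FY Φ h, norm_FN Φ h]
  have h1 : (fun j : Fin k => F_cv (Fin.cons N e) t j.succ) = F_cv e t := by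
    funext j
    simp [F_cv]
  have h2 : F_cv (Fin.cons N e) t 0 = N * t := by simp [F_cv]
  rw [h1, h2]
  simp only [F_ev1]

end

end Pool.Agent.H2.DF
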