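import Pool.Agent.H2.DF.Fam

/-!
# Limits: partial specialisation
-/

set_option autoImplicit false

namespace Pool.Agent.H2.DF

open Polynomial Filter MeasureTheory Topology Pool.Agent.H261R2.CM Pool.Agent.W5h6.HS

noncomputable section

/-- adding a fast exponent -/
theorem asymp_cons {k : ℕ} {𝓕 : Filter ℕ} {e : ℕ → Fin k → ℕ} (he : AsympIndep 𝓕 e) {N : ℕ → ℕ}
    (hN : ∀ M : ℕ, ∀ᶠ n in 𝓕, M * (1 + ∑ i, e n i) < N n) :
    AsympIndep 𝓕 (fun n => (Fin.cons (N n) (e n) : Fin (k + 1) → ℕ)) := by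
  intro s hs
  by_cases h0 : s 0 = 0
  · have h1 : (fun i : Fin k => s i.succ) ≠ 0 := by
      intro h
      apply hs
      funext i
      refine Fin.cases h0 (fun j => congrFun h j) i
    filter_upwards [he _ h1] with n hn
    rw [Fin.sum_univ_succ]
    simpa [h0] using hn
  · filter_upwards [hN (∑ i : Fin k, (s i.succ).natAbs)] with n hn
    rw [Fin.sum_univ_succ]
    simp only [Fin.cons_zero, Fin.cons_succ]
    intro h
    have h2 : |∑ i : Fin k, s i.succ * (e n i : ℤ)| ≤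
        ((∑ i : Fin k, (s i.succ).natAbs : ℕ) : ℤ) * ((∑ i, e n i : ℕ) : ℤ) := by
      refine (Finset.abs_sum_le_sum_abs _ _).trans ?_
      push_cast
      rw [Finset.sum_mul]
      refine Finset.sum_le_sum fun i _ => ?_
      rw [abs_mul, ← Int.natCast_natAbs (s i.succ), Nat.abs_cast]
      push_cast
      refine mul_le_mul_of_nonneg_left ?_ (abs_nonneg _)
      exact Finset.single_le_sum (f := fun i => (e n i : ℤ)) (fun _ _ => Int.natCast_nonneg _)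
        (Finset.mem_univ i)
    have h3 : ((∑ i : Fin k, (s i.succ).natAbs : ℕ) : ℤ) * (1 + ((∑ i, e n i : ℕ) : ℤ)) <
        (N n : ℤ) := by exact_mod_cast hn
    have h4 : |s 0 * (N n : ℤ)| = |∑ i : Fin k, s i.succ * (e n i : ℤ)| := by
      rw [← abs_neg, show -(s 0 * (N n : ℤ)) = ∑ i : Fin k, s i.succ * (e n i : ℤ) by linarith]
    have h5 : (N n : ℤ) ≤ |s 0 * (N n : ℤ)| := by
      rw [abs_mul, Nat.abs_cast]
      have : 1 ≤ |s 0| := Int.one_le_abs h0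
      nlinarith [Int.natCast_nonneg (N n)]
    have h6 : (0 : ℤ) ≤ ((∑ i : Fin k, (s i.succ).natAbs : ℕ) : ℤ) := Int.natCast_nonneg _
    nlinarith

/-- a one variable polynomial as a polynomial in the variable `0` -/
def up (A : ℤ[X]) : MvPolynomial (Fin 1) ℤ := Polynomial.aeval (MvPolynomial.X 0) A

theorem spec_up (A : ℤ[X]) : spec (fun _ => 1) (up A) = A := by
  unfold up spec
  rw [← Polynomial.aeval_algHom_apply]
  simp

theorem tv_up (A : ℤ[X]) (t : Fin 1 → ℝ) : tv (up A) t = ev1 A (t 0) := by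
  have h := F_ev1 (up A) (fun _ => 1) (t 0)
  rw [spec_up] at h
  rw [h]
  congr 1
  funext i
  rw [Subsingleton.elim i 0]
  simp [F_cv]

theorem up_ne_zero {A : ℤ[X]} (hA : A ≠ 0) : up A ≠ 0 := by
  intro h
  apply hA
  rw [← spec_up A, h, map_zero]

theorem mx_up (A B : ℤ[X]) : mx (up A) (up B) = mx1 A B := by
  unfold mx mx1
  simp_rw [tv_up]
  have h := J.cube_split (k := 0) (fun s => Real.log (max ‖ev1 A s‖ ‖ev1 B s‖)) (fun _ => 1)
  simp only [mul_one] at h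
  rw [h, setIntegral_const, J.vol_cube, intervalIntegral.integral_of_le zero_le_one,
    integral_Icc_eq_integral_Ioc]
  simp

variable {ι : Type} [Fintype ι] {m a b : ℕ}

/-- the two variable measure of a one variable tuple -/
def E2 (Φ : Fin (m + 1) → MvPolynomial (ι ⊕ ι) ℤ) (A : ι → ℤ[X]) : ℝ :=
  mM (FY Φ fun i => up (A i))

theorem E2_lim (Φ : Fin (m + 1) → MvPolynomial (ι ⊕ ι) ℤ) (h : BiHomF Φ a b) (hE : EllF Φ)
    (A : ι → ℤ[X]) (hA : ∃ i, A i ≠ 0) :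
    Tendsto (fun N => m1 (FN Φ A N)) atTop (𝓝 (E2 Φ A)) := by
  have h1 : AsympIndep atTop (fun (_ : ℕ) (_ : Fin 1) => 1) := by
    intro s hs
    refine Eventually.of_forall fun n => ?_
    simp only [Finset.univ_unique, Finset.sum_singleton]
    intro h0
    apply hs
    funext i
    rw [Subsingleton.elim i default]
    simpa using h0
  have h2 : AsympIndep atTop
      (fun n => (Fin.cons n (fun _ => 1) : Fin (1 + 1) → ℕ)) :=
    asymp_cons (N := fun n => n) h1 fun M => eventually_gt_atTop _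
  have hF : FY Φ (fun i => up (A i)) ≠ 0 := by
    obtain ⟨i, hi⟩ := hA
    exact FY_ne_zero Φ h hE _ ⟨i, up_ne_zero hi⟩
  have h3 := m1_lim atTop _ h2 (FY Φ fun i => up (A i)) hF
  refine h3.congr fun n => ?_
  rw [m1_spec_FY Φ h]
  simp only [spec_up]

theorem E2_ge_one (Φ : Fin (m + 1) → MvPolynomial (ι ⊕ ι) ℤ) (h : BiHomF Φ a b) (hE : EllF Φ)
    (A : ι → ℤ[X]) (hA : ∃ i, A i ≠ 0) : 1 ≤ E2 Φ A := by
  obtain ⟨i, hi⟩ := hA
  exact one_le_mM _ (FY_ne_zero Φ h hE _ ⟨i, up_ne_zero hi⟩)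

theorem E2_mul (Φ : Fin (m + 1) → MvPolynomial (ι ⊕ ι) ℤ) (h : BiHomF Φ a b) (hE : EllF Φ)
    (A B : ι → ℤ[X]) (hA : ∃ i, A i ≠ 0) (Q : ℤ[X]) (hQ : Q ≠ 0) (hB : ∀ i, B i = Q * A i) :
    E2 Φ B = m1 Q ^ (a + b) * E2 Φ A := by
  have hB' : ∃ i, B i ≠ 0 := by
    obtain ⟨i, hi⟩ := hA
    exact ⟨i, by rw [hB i]; exact mul_ne_zero hQ hi⟩
  have h1 := E2_lim Φ h hE B hB'
  have h2 := (E2_lim Φ h hE A hA).const_mul (m1 Q ^ (a + b))
  refine tendsto_nhds_unique h1 (h2.congr fun N => ?_)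
  rw [m1_FN_mul Φ h A B Q hB]

/-- **partial specialisation** -/
theorem part_lim {k : ℕ} (Φ : Fin (m + 1) → MvPolynomial (ι ⊕ ι) ℤ) (h : BiHomF Φ a b)
    (hE : EllF Φ) (P : ι → MvPolynomial (Fin k) ℤ) (hP : ∃ i, P i ≠ 0) (𝓕 : Filter ℕ)
    (h𝓕 : 𝓕 ≤ atTop) (e : ℕ → Fin k → ℕ) (he : AsympIndep 𝓕 e) :
    Tendsto (fun n => E2 Φ (fun i => spec (e n) (P i))) 𝓕 (𝓝 (mM (FY Φ P))) := by
  obtain ⟨i0, hi0⟩ := hP
  have hsp := spec_ne_zero 𝓕 e he (P i0) hi0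
  have hex : ∀ n, ∃ N : ℕ, n * (1 + ∑ i, e n i) < N ∧ (spec (e n) (P i0) ≠ 0 →
      |m1 (FN Φ (fun i => spec (e n) (P i)) N) - E2 Φ (fun i => spec (e n) (P i))| <
        1 / ((n : ℝ) + 1)) := by
    intro n
    by_cases h1 : spec (e n) (P i0) ≠ 0
    · have h2 := E2_lim Φ h hE (fun i => spec (e n) (P i)) ⟨i0, h1⟩
      have h3 := (Metric.tendsto_nhds.mp h2) (1 / ((n : ℝ) + 1)) (by positivity)
      obtain ⟨N, hN1, hN2⟩ := (h3.and (eventually_gt_atTop (n * (1 + ∑ i, e n i)))).exists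
      refine ⟨N, hN2, fun _ => ?_⟩
      rwa [Real.dist_eq] at hN1
    · exact ⟨n * (1 + ∑ i, e n i) + 1, by omega, fun h2 => absurd h2 h1⟩
  choose N hN1 hN2 using hex
  have hcons : AsympIndep 𝓕 (fun n => (Fin.cons (N n) (e n) : Fin (k + 1) → ℕ)) := by
    refine asymp_cons he fun M => ?_
    filter_upwards [h𝓕 (eventually_ge_atTop M)] with n hn
    exact lt_of_le_of_lt (Nat.mul_le_mul_right _ hn) (hN1 n)
  have h3 := m1_lim 𝓕 _ hcons (FY Φ P) (FY_ne_zero Φ h hE P ⟨i0, hi0⟩)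
  have h4 : Tendsto (fun n => m1 (FN Φ (fun i => spec (e n) (P i)) (N n))) 𝓕
      (𝓝 (mM (FY Φ P))) := h3.congr fun n => m1_spec_FY Φ h P (e n) (N n)
  have h5 : Tendsto (fun n => E2 Φ (fun i => spec (e n) (P i)) -
      m1 (FN Φ (fun i => spec (e n) (P i)) (N n))) 𝓕 (𝓝 0) := by
    have h6 : Tendsto (fun n : ℕ => 1 / ((n : ℝ) + 1)) 𝓕 (𝓝 0) :=
      tendsto_one_div_add_atTop_nhds_zero_nat.mono_left h𝓕
    refine squeeze_zero_norm' ?_ h6
    filter_upwards [hsp] with n hn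
    rw [Real.norm_eq_abs, abs_sub_comm]
    exact (hN2 n hn).le
  have h7 := h5.add h4
  simpa using h7

/-- The measures along tuples proportional to specialisations of a fixed coprime tuple. -/
theorem tuple_limitF {k : ℕ} (Φ : Fin (m + 1) → MvPolynomial (ι ⊕ ι) ℤ) (h : BiHomF Φ a b)
    (hE : EllF Φ) (R : ι → MvPolynomial (Fin k) ℤ) (hR : Cop R) (𝒰 : Ultrafilter ℕ)
    (h𝒰 : (𝒰 : Filter ℕ) ≤ atTop) (e : ℕ → Fin k → ℕ)
    (he : AsympIndep (𝒰 : Filter ℕ) e) (A : ℕ → ι → ℤ[X]) (hA : ∀ n, Cop (A n))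
    (hrel : ∀ᶠ n in (𝒰 : Filter ℕ), ∀ i j,
      spec (e n) (R i) * A n j = spec (e n) (R j) * A n i) :
    Tendsto (fun n => E2 Φ (A n)) (𝒰 : Filter ℕ) (𝓝 (mM (FY Φ R))) := by
  classical
  obtain ⟨i0, hi0⟩ := hR.exists_ne
  have hsp := spec_ne_zero _ e he (R i0) hi0
  have hex : ∀ n, ∃ Q : ℤ[X], (∀ i j, spec (e n) (R i) * A n j = spec (e n) (R j) * A n i) →
      spec (e n) (R i0) ≠ 0 → Q ≠ 0 ∧ ∀ i, spec (e n) (R i) = Q * A n i := by
    intro n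
    by_cases h1 : (∀ i j, spec (e n) (R i) * A n j = spec (e n) (R j) * A n i) ∧
        spec (e n) (R i0) ≠ 0
    · obtain ⟨Q, hQ⟩ := exists_quot (S := fun i => spec (e n) (R i)) (hA n) ⟨i0, h1.2⟩ h1.1
      exact ⟨Q, fun _ _ => hQ⟩
    · exact ⟨0, fun h2 h3 => absurd ⟨h2, h3⟩ h1⟩
  choose Q hQ using hex
  have hQ' : ∀ᶠ n in (𝒰 : Filter ℕ), Q n ≠ 0 ∧ ∀ i, spec (e n) (R i) = Q n * A n i := by
    filter_upwards [hrel, hsp] with n h1 h2
    exact hQ n h1 h2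
  have hlim := common_lim R hR 𝒰 e he Q (hQ'.mono fun n hn i => ⟨A n i, hn.2 i⟩)
  have h1 := part_lim Φ h hE R ⟨i0, hi0⟩ (𝒰 : Filter ℕ) h𝒰 e he
  have h2 : Tendsto (fun n => Real.exp (-(((a + b : ℕ) : ℝ) * Real.log (m1 (Q n)))))
      (𝒰 : Filter ℕ) (𝓝 1) := by
    have h3 := (Real.continuous_exp.tendsto _).comp (hlim.const_mul ((a + b : ℕ) : ℝ)).neg
    rw [mul_zero, neg_zero, Real.exp_zero] at h3
    exact h3
  have h3 := h1.mul h2
  rw [mul_one] at h3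
  refine h3.congr' ?_
  filter_upwards [hQ'] with n hn
  have h4 : 0 < m1 (Q n) := lt_of_lt_of_le one_pos (I1_one_le_m1 hn.1)
  rw [E2_mul Φ h hE (A n) _ (hA n).exists_ne (Q n) hn.1 hn.2, Real.exp_neg, Real.exp_nat_mul,
    Real.exp_log h4]
  have h5 : m1 (Q n) ^ (a + b) ≠ 0 := by positivity
  field_simp

/-- Approximation of a tuple in several variables by tuples in one variable. -/
theorem approx_tupleF {k : ℕ} (Φ : Fin (m + 1) → MvPolynomial (ι ⊕ ι) ℤ) (h : BiHomF Φ a b)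
    (hE : EllF Φ) (P : ι → MvPolynomial (Fin k) ℤ) (hP : Cop P) (ε : ℝ) (hε : 0 < ε) :
    ∃ A : ι → ℤ[X], Cop A ∧ |E2 Φ A - mM (FY Φ P)| < ε := by
  classical
  obtain ⟨i0, hi0⟩ := hP.exists_ne
  set e : ℕ → Fin k → ℕ := fun (n : ℕ) (i : Fin k) => n ^ (i : ℕ) with he
  have he1 : AsympIndep (hyperfilter ℕ : Filter ℕ) e := fun s hs =>
    I2_hyper_le (asympIndep_pow k s hs)
  have hex : ∀ n, ∃ A : ι → ℤ[X], Cop A ∧ (spec (e n) (P i0) ≠ 0 →
      ∀ i j, spec (e n) (P i) * A j = spec (e n) (P j) * A i) := by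
    intro n
    by_cases h1 : spec (e n) (P i0) ≠ 0
    · obtain ⟨G, A, _, h2, h3⟩ := exists_reduced (fun i => spec (e n) (P i)) ⟨i0, h1⟩
      refine ⟨A, h3, fun _ i j => ?_⟩
      have h4 := h2 i
      have h5 := h2 j
      rw [h4, h5]
      ring
    · exact ⟨fun _ => 1, fun D hD => isUnit_of_dvd_one (hD i0), fun h2 => absurd h2 h1⟩
  choose A hA hrel using hex
  have hrel' : ∀ᶠ n in (hyperfilter ℕ : Filter ℕ), ∀ i j,
      spec (e n) (P i) * A n j = spec (e n) (P j) * A n i := by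
    filter_upwards [spec_ne_zero _ e he1 (P i0) hi0] with n h1
    exact hrel n h1
  have hl := tuple_limitF Φ h hE P hP (hyperfilter ℕ) I2_hyper_le e he1 A hA hrel'
  obtain ⟨n, hn⟩ := ((Metric.tendsto_nhds.mp hl) ε hε).exists
  rw [Real.dist_eq] at hn
  exact ⟨A n, hA n, hn⟩

end

end Pool.Agent.H2.DF
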